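import Pool.Agent.K3h75.ND.Stm

/-!
# The second chart: derivatives
-/

set_option autoImplicit false

open scoped Pointwise

namespace Pool.Agent.K3h69.ND

open MvPolynomial Pool.Agent.H918R2.Quad Pool.Agent.K3h75.ND

noncomputable section

variable {R σ : Type} [CommRing R]

/-- the ring of the second chart -/
abbrev WW (R σ : Type) [CommRing R] : Type := MvPolynomial (σ ⊕ (σ ⊕ Bool)) R

/-- polynomials in the coordinates -/
def ren : MvPolynomial σ R →ₐ[R] WW R σ := rename Sum.inl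

/-- the variable `w l` -/
def wv (l : σ) : WW R σ := X (Sum.inr (Sum.inl l))

/-- the variable `s` -/
def SS : WW R σ := X (Sum.inr (Sum.inr true))

/-- the variable `T` -/
def TT : WW R σ := X (Sum.inr (Sum.inr false))

/-- the quadratic form -/
def qq [Fintype σ] (b : σ → σ → MvPolynomial σ R) : WW R σ :=
  ∑ l, ∑ m, ren (b l m) * wv l * wv m

/-- the relations -/
def cl (π : R) (j : ℕ) (f : MvPolynomial σ R) (l : σ) : WW R σ :=
  ren (pderiv l f) - C (π ^ j) * SS * wv l

theorem d_ren_inl (i : σ) (p : MvPolynomial σ R) :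
    pderiv (Sum.inl i) (ren p : WW R σ) = ren (pderiv i p) := by
  classical
  exact pderiv_rename (f := (Sum.inl : σ → σ ⊕ (σ ⊕ Bool))) Sum.inl_injective i p

theorem d_ren_inr (z : σ ⊕ Bool) (p : MvPolynomial σ R) :
    pderiv (Sum.inr z) (ren p : WW R σ) = 0 := by
  classical
  apply pderiv_eq_zero_of_notMem_vars
  intro h
  have h1 := vars_rename (Sum.inl : σ → σ ⊕ (σ ⊕ Bool)) p h
  obtain ⟨a, _, ha⟩ := Finset.mem_image.mp h1
  cases ha

theorem d_wv [DecidableEq σ] (m l : σ) :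
    pderiv (Sum.inr (Sum.inl m)) (wv l : WW R σ) = if l = m then 1 else 0 := by
  classical
  unfold wv
  split_ifs with h
  · rw [h, pderiv_X_self]
  · exact pderiv_X_of_ne (fun h' => h (Sum.inl_injective (Sum.inr_injective h')))

theorem d_wv_inl (i l : σ) : pderiv (Sum.inl i) (wv l : WW R σ) = 0 := by
  classical
  exact pderiv_X_of_ne (fun h' => by cases h')

theorem d_wv_b (c : Bool) (l : σ) : pderiv (Sum.inr (Sum.inr c)) (wv l : WW R σ) = 0 := by
  classical
  exact pderiv_X_of_ne (fun h' => by cases (Sum.inr_injective h'))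

theorem d_S_inl (i : σ) : pderiv (Sum.inl i) (SS : WW R σ) = 0 := by
  classical
  exact pderiv_X_of_ne (fun h' => by cases h')

theorem d_S_w (i : σ) : pderiv (Sum.inr (Sum.inl i)) (SS : WW R σ) = 0 := by
  classical
  exact pderiv_X_of_ne (fun h' => by cases (Sum.inr_injective h'))

theorem d_S_T : pderiv (Sum.inr (Sum.inr false)) (SS : WW R σ) = 0 := by
  classical
  exact pderiv_X_of_ne (fun h' => by cases (Sum.inr_injective (Sum.inr_injective h')))

theorem d_T_inl (i : σ) : pderiv (Sum.inl i) (TT : WW R σ) = 0 := by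
  classical
  exact pderiv_X_of_ne (fun h' => by cases h')

theorem d_T_w (i : σ) : pderiv (Sum.inr (Sum.inl i)) (TT : WW R σ) = 0 := by
  classical
  exact pderiv_X_of_ne (fun h' => by cases (Sum.inr_injective h'))

theorem d_T_T : pderiv (Sum.inr (Sum.inr false)) (TT : WW R σ) = 1 := by
  classical
  exact pderiv_X_self _

theorem d_q_w [Fintype σ] [DecidableEq σ] (b : σ → σ → MvPolynomial σ R) (m : σ) :
    pderiv (Sum.inr (Sum.inl m)) (qq b : WW R σ) =
      ∑ l, ((polar b).map ren) m l * (wv l : WW R σ) := by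
  unfold qq
  rw [map_sum]
  have h1 : ∀ l, pderiv (Sum.inr (Sum.inl m)) (∑ n, ren (b l n) * wv l * wv n : WW R σ) =
      (if l = m then ∑ n, ren (b l n) * wv n else 0) + ren (b l m) * wv l := by
    intro l
    rw [map_sum]
    have h2 : ∀ n, pderiv (Sum.inr (Sum.inl m)) (ren (b l n) * wv l * wv n : WW R σ) =
        (if l = m then ren (b l n) * wv n else 0) + (if n = m then ren (b l n) * wv l else 0) := by
      intro n
      rw [pderiv_mul, pderiv_mul, d_ren_inr, d_wv, d_wv]
      split_ifs <;> ring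
    rw [Finset.sum_congr rfl fun n _ => h2 n, Finset.sum_add_distrib, Finset.sum_ite_eq',
      if_pos (Finset.mem_univ _)]
    split_ifs with h
    · rfl
    · rw [Finset.sum_const_zero]
  rw [Finset.sum_congr rfl fun l _ => h1 l, Finset.sum_add_distrib, Finset.sum_ite_eq',
    if_pos (Finset.mem_univ _), ← Finset.sum_add_distrib]
  refine Finset.sum_congr rfl fun l _ => ?_
  rw [Matrix.map_apply, polar, Matrix.of_apply, map_add, add_mul]

theorem d_q_T [Fintype σ] (b : σ → σ → MvPolynomial σ R) :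
    pderiv (Sum.inr (Sum.inr false)) (qq b : WW R σ) = 0 := by
  unfold qq
  rw [map_sum]
  refine Finset.sum_eq_zero fun l _ => ?_
  rw [map_sum]
  refine Finset.sum_eq_zero fun m _ => ?_
  rw [pderiv_mul, pderiv_mul, d_ren_inr, d_wv_b, d_wv_b]
  ring

theorem two_q [Fintype σ] (b : σ → σ → MvPolynomial σ R) :
    ∑ m, (wv m : WW R σ) * ∑ l, ((polar b).map ren) m l * (wv l : WW R σ) = 2 * qq b := by
  have h1 : ∑ m, (wv m : WW R σ) * ∑ l, ((polar b).map ren) m l * (wv l : WW R σ) =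
      ∑ m, ∑ l, (ren (b m l) * wv m * wv l) + ∑ m, ∑ l, (ren (b l m) * wv l * wv m) := by
    rw [← Finset.sum_add_distrib]
    refine Finset.sum_congr rfl fun m _ => ?_
    rw [← Finset.sum_add_distrib, Finset.mul_sum]
    refine Finset.sum_congr rfl fun l _ => ?_
    rw [Matrix.map_apply, polar, Matrix.of_apply, map_add]
    ring
  rw [h1, Finset.sum_comm (f := fun m l => ren (b l m) * wv l * wv m), two_mul]
  rfl

theorem adj_mem {W : Type} [CommRing W] [Fintype σ] [DecidableEq σ] (Q : Ideal W) [Q.IsPrime]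
    (M : Matrix σ σ W) (v : σ → W) (h : ∀ i, ∑ l, M i l * v l ∈ Q) (hd : M.det ∉ Q) :
    ∀ i, v i ∈ Q := by
  intro i
  have h1 : M.det * v i = ∑ k, M.adjugate i k * ∑ l, M k l * v l := by
    have h2 := congrFun (congrArg (fun N : Matrix σ σ W => N.mulVec v) (Matrix.adjugate_mul M)) i
    have h3 : (M.adjugate * M).mulVec v = M.adjugate.mulVec (M.mulVec v) :=
      (Matrix.mulVec_mulVec v M.adjugate M).symm
    simp only [h3, Matrix.smul_mulVec, Matrix.one_mulVec, Pi.smul_apply, smul_eq_mul] at h2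
    rw [← h2]
    rfl
  have h2 : M.det * v i ∈ Q := by
    rw [h1]
    exact Q.sum_mem fun k _ => Q.mul_mem_left _ (h k)
  exact (Ideal.IsPrime.mem_or_mem inferInstance h2).resolve_left hd

/-- the Jacobian computation -/
theorem jac [Fintype σ] [DecidableEq σ] (π : R) (j : ℕ) (f : MvPolynomial σ R)
    (b : σ → σ → MvPolynomial σ R) (i₀ : σ) (e G : WW R σ) (Q : Ideal (WW R σ)) [hQ : Q.IsPrime]
    (hπS : (C (π ^ j) * SS : WW R σ) ∈ Q) (hw : (wv i₀ - 1 : WW R σ) ∈ Q)
    (hB : ((polar b).map ren : Matrix σ σ (WW R σ)).det ∉ Q)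
    (hH : ((hess f).map ren : Matrix σ σ (WW R σ)).det ∉ Q)
    (hG : ∀ m, pderiv (Sum.inr (Sum.inl m)) G =
      e * ∑ l, ((polar b).map ren) m l * (wv l : WW R σ))
    (a : σ → WW R σ) (a₁ a₂ a₃ : WW R σ)
    (hd : ∀ z, (∑ l, a l * pderiv z (cl π j f l)) + a₁ * pderiv z (wv i₀ - 1) + a₂ * pderiv z G +
      a₃ * pderiv z (SS * TT - C π) ∈ Q)
    (hc : a₂ ∈ Q ∨ (e ∉ Q ∧ (qq b : WW R σ) ∈ Q)) :
    (∀ l, a l ∈ Q) ∧ a₁ ∈ Q ∧ a₂ ∈ Q ∧ a₃ * SS ∈ Q := by
  -- derivatives with respect to `w m`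
  have hm : ∀ m, a₁ * (if i₀ = m then 1 else 0) +
      a₂ * (e * ∑ l, ((polar b).map ren) m l * (wv l : WW R σ)) ∈ Q := by
    intro m
    have h1 := hd (Sum.inr (Sum.inl m))
    rw [hG m] at h1
    have h2 : ∀ l, pderiv (Sum.inr (Sum.inl m)) (cl π j f l) =
        - (C (π ^ j) * SS * if l = m then 1 else 0) := by
      intro l
      unfold cl
      rw [map_sub, d_ren_inr, pderiv_mul, pderiv_mul, pderiv_C, d_S_w, d_wv]
      ring
    have h3 : pderiv (Sum.inr (Sum.inl m)) (wv i₀ - 1 : WW R σ) = if i₀ = m then 1 else 0 := by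
      rw [map_sub, d_wv, pderiv_one, sub_zero]
    have h4 : pderiv (Sum.inr (Sum.inl m)) (SS * TT - C π : WW R σ) = 0 := by
      rw [map_sub, pderiv_mul, d_S_w, d_T_w, pderiv_C]
      ring
    rw [h3, h4, mul_zero, add_zero] at h1
    have h5 : (∑ l, a l * pderiv (Sum.inr (Sum.inl m)) (cl π j f l)) ∈ Q := by
      refine Q.sum_mem fun l _ => ?_
      rw [h2]
      refine Q.mul_mem_left _ (Q.neg_mem (Q.mul_mem_right _ hπS))
    rw [add_assoc] at h1
    exact (Ideal.add_mem_iff_right Q h5).mp h1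
  have ha2 : a₂ ∈ Q := by
    rcases hc with h | ⟨he, hq⟩
    · exact h
    by_contra ha2
    have h1 : ∀ m, m ≠ i₀ → (∑ l, ((polar b).map ren) m l * (wv l : WW R σ)) ∈ Q := by
      intro m hm0
      have h2 := hm m
      rw [if_neg (Ne.symm hm0), mul_zero, zero_add] at h2
      exact (hQ.mem_or_mem ((hQ.mem_or_mem h2).resolve_left ha2)).resolve_left he
    have h2 : (∑ l, ((polar b).map ren) i₀ l * (wv l : WW R σ)) ∈ Q := by
      have h3 := two_q b
      rw [← Finset.add_sum_erase _ _ (Finset.mem_univ i₀)] at h3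
      have h4 : (∑ m ∈ Finset.univ.erase i₀, (wv m : WW R σ) *
          ∑ l, ((polar b).map ren) m l * (wv l : WW R σ)) ∈ Q :=
        Q.sum_mem fun m hm0 => Q.mul_mem_left _ (h1 m (Finset.ne_of_mem_erase hm0))
      have h5 : (wv i₀ : WW R σ) * ∑ l, ((polar b).map ren) i₀ l * (wv l : WW R σ) ∈ Q := by
        refine (Ideal.add_mem_iff_left Q h4).mp ?_
        rw [h3]
        exact Q.mul_mem_left _ hq
      have h6 : (wv i₀ - 1 : WW R σ) * ∑ l, ((polar b).map ren) i₀ l * (wv l : WW R σ) ∈ Q :=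
        Q.mul_mem_right _ hw
      have h7 := Q.sub_mem h5 h6
      have e7 : (wv i₀ : WW R σ) * (∑ l, ((polar b).map ren) i₀ l * (wv l : WW R σ)) -
          (wv i₀ - 1 : WW R σ) * (∑ l, ((polar b).map ren) i₀ l * (wv l : WW R σ)) =
          ∑ l, ((polar b).map ren) i₀ l * (wv l : WW R σ) := by ring
      rw [e7] at h7
      exact h7
    have h3 := adj_mem Q ((polar b).map ren) (fun l => (wv l : WW R σ)) (fun m => by
      by_cases hm0 : m = i₀
      · rw [hm0]; exact h2
      · exact h1 m hm0) hB i₀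
    have h4 := Q.sub_mem h3 hw
    have e4 : (wv i₀ : WW R σ) - (wv i₀ - 1) = 1 := by ring
    rw [e4] at h4
    exact hQ.ne_top ((Ideal.eq_top_iff_one Q).mpr h4)
  have ha1 : a₁ ∈ Q := by
    have h1 := hm i₀
    rw [if_pos rfl, mul_one] at h1
    exact (Ideal.add_mem_iff_left Q (Q.mul_mem_right _ ha2)).mp h1
  refine ⟨?_, ha1, ha2, ?_⟩
  · apply adj_mem Q ((hess f).map ren) a _ hH
    intro i
    have h1 := hd (Sum.inl i)
    have h2 : ∀ l, pderiv (Sum.inl i) (cl π j f l) = ((hess f).map ren) i l := by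
      intro l
      unfold cl
      rw [map_sub, d_ren_inl, pderiv_mul, pderiv_mul, pderiv_C, d_S_inl, d_wv_inl, Matrix.map_apply,
        hess, Matrix.of_apply]
      ring
    have h3 : pderiv (Sum.inl i) (wv i₀ - 1 : WW R σ) = 0 := by
      rw [map_sub, d_wv_inl, pderiv_one, sub_zero]
    have h4 : pderiv (Sum.inl i) (SS * TT - C π : WW R σ) = 0 := by
      rw [map_sub, pderiv_mul, d_S_inl, d_T_inl, pderiv_C]
      ring
    rw [h3, h4, mul_zero, mul_zero, add_zero, add_zero] at h1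
    have h5 := (Ideal.add_mem_iff_left Q (Q.mul_mem_right _ ha2)).mp h1
    have e5 : (∑ l, ((hess f).map ren) i l * a l : WW R σ) =
        ∑ l, a l * pderiv (Sum.inl i) (cl π j f l) :=
      Finset.sum_congr rfl fun l _ => by rw [h2, mul_comm]
    rw [e5]
    exact h5
  · have h1 := hd (Sum.inr (Sum.inr false))
    have h2 : ∀ l, pderiv (Sum.inr (Sum.inr false)) (cl π j f l) = 0 := by
      intro l
      unfold cl
      rw [map_sub, d_ren_inr, pderiv_mul, pderiv_mul, pderiv_C, d_S_T, d_wv_b]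
      ring
    have h3 : pderiv (Sum.inr (Sum.inr false)) (wv i₀ - 1 : WW R σ) = 0 := by
      rw [map_sub, d_wv_b, pderiv_one, sub_zero]
    have h4 : pderiv (Sum.inr (Sum.inr false)) (SS * TT - C π : WW R σ) = SS := by
      rw [map_sub, pderiv_mul, d_S_T, d_T_T, pderiv_C]
      ring
    rw [h3, h4, mul_zero, add_zero, Finset.sum_eq_zero (fun l _ => by rw [h2, mul_zero]),
      zero_add] at h1
    exact (Ideal.add_mem_iff_right Q (Q.mul_mem_right _ ha2)).mp h1

end

end Pool.Agent.K3h69.ND
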