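import Pool.Agent.K3h69.ND.R2a

/-!
# Regularity of the second chart
-/

set_option autoImplicit false

open scoped Pointwise

namespace Pool.Agent.K3h69.ND

open MvPolynomial Pool.Agent.H918R2.Quad Pool.Agent.K3h75.ND

noncomputable section

theorem det_ren {R σ : Type} [CommRing R] [Fintype σ] [DecidableEq σ]
    (M : Matrix σ σ (MvPolynomial σ R)) : (M.map (ren : MvPolynomial σ R →ₐ[R] WW R σ)).det =
      ren M.det := by
  have := AlgHom.map_det (ren : MvPolynomial σ R →ₐ[R] WW R σ) M
  rw [AlgHom.mapMatrix_apply] at this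
  exact this.symm

theorem reg2_aux (hJ1 : S_JR1) (hJ2 : S_JR2) {R F σ : Type} [CommRing R] [IsDomain R]
    [IsDiscreteValuationRing R] [Field F] [Algebra R F] [Fintype σ] [DecidableEq σ]
    (𝒪 : Subring F) (π : R) (f : MvPolynomial σ R) (t : σ → F) (k : ℕ)
    (h u : MvPolynomial σ R) (b : σ → σ → MvPolynomial σ R) (nd : NodeData 𝒪 π f t k h u b)
    (j : ℕ) (i₀ : σ) (w : σ → F) (s τ : F) (hwm : ∀ l, w l ∈ 𝒪) (hw0 : w i₀ = 1) (hs : s ∈ 𝒪)
    (hτ : τ ∈ 𝒪) (hτU : ¬ U 𝒪 τ) (hst : s * τ = algebraMap R F π)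
    (hy : ∀ l, aeval t (pderiv l f) = algebraMap R F (π ^ j) * s * w l)
    (hfr : ∀ x ∈ 𝒪, ∃ a b : WW R σ, U 𝒪 (aeval (val2 t w s τ) b) ∧
      x = aeval (val2 t w s τ) a / aeval (val2 t w s τ) b)
    (e G : WW R σ) (hG0 : aeval (val2 t w s τ) G = 0)
    (hG1 : ∃ c c' : WW R σ, C (π ^ k) * ren u + C (π ^ (2 * j)) * SS ^ 2 * qq b =
      c * G + c' * (SS * TT - C π))
    (hG2 : ∀ m, pderiv (Sum.inr (Sum.inl m)) G =
      e * ∑ l, ((polar b).map ren) m l * (wv l : WW R σ))
    (hG3 : ∀ Q : Ideal (WW R σ), Q.IsPrime → TT ∈ Q → G ∈ Q → e ∉ Q → qq b ∈ Q)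
    (hG4 : ∀ Q : Ideal (WW R σ), Q.IsPrime → TT ∈ Q → e ∈ Q → ren u ∉ Q →
      SS ∈ Q ∧ pderiv (Sum.inr (Sum.inr false)) G ∉ Q) :
    IsRegularLocalRing 𝒪 := by
  classical
  let fam : σ ⊕ Bool → WW R σ := Sum.elim (cl π j f) fun c => bif c then wv i₀ - 1 else G
  obtain ⟨A, _, _, pr, hpr, hker, hpr0⟩ :=
    exists_quot (R := R) (Ideal.span (insert (SS * TT - C π : WW R σ) (Set.range fam)))
  obtain ⟨eW, heW⟩ : ∃ eW : WW R σ →ₐ[R] F, eW = aeval (val2 t w s τ) := ⟨_, rfl⟩
  rw [← heW] at hG0 hfr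
  have e_ren : ∀ p : MvPolynomial σ R, eW (ren p) = aeval t p := by
    intro p
    rw [heW]
    unfold ren
    rw [aeval_rename]
    rfl
  have e_w : ∀ l, eW (wv l) = w l := by
    intro l
    rw [heW]
    unfold wv
    rw [aeval_X]
    rfl
  have e_S : eW SS = s := by
    rw [heW]
    unfold SS
    rw [aeval_X]
    rfl
  have e_T : eW TT = τ := by
    rw [heW]
    unfold TT
    rw [aeval_X]
    rfl
  have e_C : ∀ r, eW (C r) = algebraMap R F r := by
    intro r
    rw [heW, aeval_C]
  have hinj : Function.Injective (algebraMap R F) := by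
    obtain ⟨j₀, hj₀⟩ := nd.ind
    exact hj₀.algebraMap_injective
  have hπ0 : algebraMap R F π ≠ 0 := by
    rw [Ne, map_eq_zero_iff _ hinj]
    exact nd.irr.ne_zero
  have hs0 : s ≠ 0 := by
    rintro rfl
    rw [zero_mul] at hst
    exact hπ0 hst.symm
  have hC0 : ∀ l, (cl π j f l : WW R σ) ∈
      Ideal.span (insert (SS * TT - C π : WW R σ) (Set.range fam)) := fun l =>
    Ideal.subset_span (Set.mem_insert_of_mem _ ⟨Sum.inl l, rfl⟩)
  have hC1 : (wv i₀ - 1 : WW R σ) ∈
      Ideal.span (insert (SS * TT - C π : WW R σ) (Set.range fam)) :=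
    Ideal.subset_span (Set.mem_insert_of_mem _ ⟨Sum.inr true, rfl⟩)
  have hC2 : G ∈ Ideal.span (insert (SS * TT - C π : WW R σ) (Set.range fam)) :=
    Ideal.subset_span (Set.mem_insert_of_mem _ ⟨Sum.inr false, rfl⟩)
  have hC3 : (SS * TT - C π : WW R σ) ∈
      Ideal.span (insert (SS * TT - C π : WW R σ) (Set.range fam)) :=
    Ideal.subset_span (Set.mem_insert _ _)
  have hle : Ideal.span (insert (SS * TT - C π : WW R σ) (Set.range fam)) ≤
      RingHom.ker (eW : WW R σ →+* F) := by
    rw [Ideal.span_le]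
    intro x hx
    rw [SetLike.mem_coe, RingHom.mem_ker]
    change eW x = 0
    rcases hx with rfl | ⟨z, rfl⟩
    · rw [map_sub, map_mul, e_S, e_T, e_C, hst, sub_self]
    · rcases z with l | c
      · change eW (cl π j f l) = 0
        unfold cl
        rw [map_sub, map_mul, map_mul, e_ren, e_C, e_S, e_w, hy, sub_self]
      · cases c
        · exact hG0
        · change eW (wv i₀ - 1) = 0
          rw [map_sub, e_w, map_one, hw0, sub_self]
  have hW : ∀ x, eW x ∈ 𝒪 := by
    intro x
    induction x using MvPolynomial.induction_on with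
    | C r => rw [e_C]; exact nd.R_mem r
    | add p q hp hq => rw [map_add]; exact 𝒪.add_mem hp hq
    | mul_X p z hp =>
      rw [map_mul]
      refine 𝒪.mul_mem hp ?_
      rcases z with l | l | c
      · have : eW (X (Sum.inl l)) = t l := by rw [heW, aeval_X]; rfl
        rw [this]; exact nd.t_mem l
      · have := e_w l
        unfold wv at this
        rw [this]; exact hwm l
      · cases c
        · have := e_T
          unfold TT at this
          rw [this]; exact hτ
        · have := e_S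
          unfold SS at this
          rw [this]; exact hs
  have pcl : ∀ l, pr (ren (pderiv l f)) = pr (C (π ^ j) * SS * wv l) := by
    intro l
    rw [← sub_eq_zero, ← map_sub]
    exact (hpr0 _).mpr (hC0 l)
  have pw : pr (wv i₀) = 1 := by
    rw [← sub_eq_zero, ← map_one pr, ← map_sub]
    exact (hpr0 _).mpr hC1
  have pST : pr (SS * TT) = pr (C π) := by
    rw [← sub_eq_zero, ← map_sub]
    exact (hpr0 _).mpr hC3
  have pG : pr G = 0 := (hpr0 _).mpr hC2
  have ay : ∀ p : MvPolynomial σ R, aeval (fun l : σ => (X (Sum.inl l) : WW R σ)) p = ren p := by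
    have hay : (aeval (fun l : σ => (X (Sum.inl l) : WW R σ)) :
        MvPolynomial σ R →ₐ[R] WW R σ) = ren := by
      apply MvPolynomial.algHom_ext
      intro i
      rw [aeval_X]
      unfold ren
      rw [rename_X]
    intro p
    rw [hay]
  have hf0 : f ≠ 0 := by
    rintro rfl
    have h1 := nd.hes.1
    apply h1
    have : Nonempty σ := ⟨i₀⟩
    have h2 : hess (0 : MvPolynomial σ R) = 0 := by
      ext1 i l
      rw [hess, Matrix.of_apply, map_zero, map_zero]
      rfl
    rw [h2, Matrix.det_zero, map_zero]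
  have hh0 : h ≠ 0 := by
    rintro rfl
    exact nd.h_unit.1 (map_zero _)
  obtain ⟨j₀, hj₀⟩ := nd.ind
  refine regular_of_pres 𝒪 nd.loc pr hpr eW (fun x hx => hle ((hpr0 x).mp hx)) hW ?_ ?_
    (fun l : σ => (X (Sum.inl l) : WW R σ)) (h * f) (mul_ne_zero hh0 hf0) ?_ j₀ ?_ ?_
  · -- fractions
    intro x hx
    obtain ⟨a, c, hc, hx'⟩ := hfr x hx
    exact ⟨a, c, hc.1, hc.2.2, hx'⟩
  · -- regularity
    intro q _ hq
    obtain ⟨Q, hQdef⟩ : ∃ Q : Ideal (WW R σ), Q = q.comap (pr : WW R σ →+* A) := ⟨_, rfl⟩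
    have hQp : Q.IsPrime := by
      rw [hQdef]
      infer_instance
    have hmem : ∀ x, x ∈ Q ↔ pr x ∈ q := fun x => by rw [hQdef]; exact Iff.rfl
    have hQ : ∀ x, x ∈ Q ↔ ¬ U 𝒪 (eW x) := fun x => (hmem x).trans (hq x)
    have hCπ : (C π : WW R σ) ∈ Q := by
      rw [hQ, e_C]
      intro hU
      exact nd.irr.not_isUnit (nd.R_unit _ hU)
    have hTQ : (TT : WW R σ) ∈ Q := by
      rw [hQ, e_T]
      exact hτU
    have hπS : (C (π ^ j) * SS : WW R σ) ∈ Q := by
      rw [hQ, map_mul, e_C, e_S]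
      have h1 := nd.crit i₀
      rw [hy, hw0, mul_one] at h1
      exact h1
    have hwQ : (wv i₀ - 1 : WW R σ) ∈ Q := by
      rw [hmem, map_sub, pw, map_one, sub_self]
      exact q.zero_mem
    have hGQ : G ∈ Q := by
      rw [hmem, pG]
      exact q.zero_mem
    have huQ : (ren u : WW R σ) ∉ Q := by
      rw [hQ, e_ren, not_not]
      exact nd.u_unit
    have hB : ((polar b).map ren : Matrix σ σ (WW R σ)).det ∉ Q := by
      rw [det_ren, hQ, e_ren, not_not]
      exact nd.b_unit
    have hH : ((hess f).map ren : Matrix σ σ (WW R σ)).det ∉ Q := by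
      rw [det_ren, hQ, e_ren, not_not]
      exact nd.hes
    by_cases hSQ : (SS : WW R σ) ∈ Q
    · refine hJ2 R _ (σ ⊕ Bool) A π nd.irr (pr : WW R σ →+* A) hpr fam (SS * TT - C π) (-1) hker q
        ((hmem _).mp hCπ) ?_ ?_ ?_
      · intro a ha
        have hd : ∀ z, (∑ l, a (Sum.inl l) * pderiv z (cl π j f l)) +
            a (Sum.inr true) * pderiv z (wv i₀ - 1) + a (Sum.inr false) * pderiv z G +
            0 * pderiv z (SS * TT - C π) ∈ Q := by
          intro z
          have h1 := (hmem _).mpr (ha z)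
          rw [Fintype.sum_sum_type, Fintype.sum_bool] at h1
          rw [zero_mul, add_zero, add_assoc]
          exact h1
        have hc : a (Sum.inr false) ∈ Q ∨ (e ∉ Q ∧ (qq b : WW R σ) ∈ Q) := by
          by_cases he : e ∈ Q
          · left
            obtain ⟨_, h2⟩ := hG4 Q hQp hTQ he huQ
            have h1 := hd (Sum.inr (Sum.inr false))
            have h3 : ∀ l, pderiv (Sum.inr (Sum.inr false)) (cl π j f l) = 0 := by
              intro l
              unfold cl
              rw [map_sub, d_ren_inr, pderiv_mul, pderiv_mul, pderiv_C, d_S_T, d_wv_b]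
              ring
            have h4 : pderiv (Sum.inr (Sum.inr false)) (wv i₀ - 1 : WW R σ) = 0 := by
              rw [map_sub, d_wv_b, pderiv_one, sub_zero]
            rw [h4, Finset.sum_eq_zero (fun l _ => by rw [h3, mul_zero]), mul_zero, zero_mul,
              zero_add, zero_add, add_zero] at h1
            exact (hQp.mem_or_mem h1).resolve_right h2
          · exact Or.inr ⟨he, hG3 Q hQp hTQ hGQ he⟩
        obtain ⟨r1, r2, r3, _⟩ := jac π j f b i₀ e G Q hπS hwQ hB hH hG2
          (fun l => a (Sum.inl l)) _ _ 0 hd hc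
        rintro (l | c)
        · exact (hmem _).mp (r1 l)
        · cases c
          · exact (hmem _).mp r3
          · exact (hmem _).mp r2
      · intro h1
        have h2 := Q.neg_mem ((hmem (-1)).mpr h1)
        rw [neg_neg] at h2
        exact hQp.ne_top ((Ideal.eq_top_iff_one Q).mpr h2)
      · rw [← hQdef, pow_two]
        have e1 : (SS * TT - C π : WW R σ) - -1 * C π = SS * TT := by ring
        rw [e1]
        exact Ideal.mul_mem_mul hSQ hTQ
    · let fam1 : Option (σ ⊕ Bool) → WW R σ := fun o => o.elim (SS * TT - C π) fam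
      have hrange : Set.range fam1 = insert (SS * TT - C π : WW R σ) (Set.range fam) := by
        ext x
        constructor
        · rintro ⟨o, rfl⟩
          cases o with
          | none => exact Set.mem_insert _ _
          | some z => exact Set.mem_insert_of_mem _ ⟨z, rfl⟩
        · rintro (rfl | ⟨z, rfl⟩)
          · exact ⟨none, rfl⟩
          · exact ⟨some z, rfl⟩
      refine hJ1 R _ (Option (σ ⊕ Bool)) A π nd.irr (pr : WW R σ →+* A) hpr fam1
        (by rw [hker, hrange]) q ((hmem _).mp hCπ) ?_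
      intro a ha
      have hd : ∀ z, (∑ l, a (some (Sum.inl l)) * pderiv z (cl π j f l)) +
          a (some (Sum.inr true)) * pderiv z (wv i₀ - 1) + a (some (Sum.inr false)) * pderiv z G +
          a none * pderiv z (SS * TT - C π) ∈ Q := by
        intro z
        have h1 := (hmem _).mpr (ha z)
        rw [Fintype.sum_option, Fintype.sum_sum_type, Fintype.sum_bool] at h1
        rw [add_comm, add_assoc]
        exact h1
      have hc : a (some (Sum.inr false)) ∈ Q ∨ (e ∉ Q ∧ (qq b : WW R σ) ∈ Q) := by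
        by_cases he : e ∈ Q
        · exact absurd (hG4 Q hQp hTQ he huQ).1 hSQ
        · exact Or.inr ⟨he, hG3 Q hQp hTQ hGQ he⟩
      obtain ⟨r1, r2, r3, r4⟩ := jac π j f b i₀ e G Q hπS hwQ hB hH hG2
        (fun l => a (some (Sum.inl l))) _ _ _ hd hc
      have r5 := (hQp.mem_or_mem r4).resolve_right hSQ
      rintro (_ | l | c)
      · exact (hmem _).mp r5
      · exact (hmem _).mp (r1 l)
      · cases c
        · exact (hmem _).mp r3
        · exact (hmem _).mp r2
  · -- the relation
    rw [ay, nd.eq, map_add, map_mul, map_sum]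
    obtain ⟨c, c', hcc⟩ := hG1
    have h1 : pr (∑ i, ren (∑ l, b i l * pderiv i f * pderiv l f)) =
        pr (C (π ^ (2 * j)) * SS ^ 2 * qq b) := by
      have h2 : (C (π ^ (2 * j)) * SS ^ 2 * qq b : WW R σ) = ∑ i, ∑ l,
          ren (b i l) * (C (π ^ j) * SS * wv i) * (C (π ^ j) * SS * wv l) := by
        unfold qq
        rw [Finset.mul_sum]
        refine Finset.sum_congr rfl fun i _ => ?_
        rw [Finset.mul_sum]
        refine Finset.sum_congr rfl fun l _ => ?_
        rw [two_mul, pow_add, map_mul]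
        ring
      rw [h2, map_sum, map_sum]
      refine Finset.sum_congr rfl fun i _ => ?_
      rw [map_sum, map_sum, map_sum]
      refine Finset.sum_congr rfl fun l _ => ?_
      rw [map_mul, map_mul, map_mul, map_mul, pcl, pcl, ← map_mul, ← map_mul]
    have h3 : pr (ren (C (π ^ k) : MvPolynomial σ R) * ren u +
        ∑ i, ren (∑ l, b i l * pderiv i f * pderiv l f)) =
        pr (C (π ^ k) * ren u + C (π ^ (2 * j)) * SS ^ 2 * qq b) := by
      rw [map_add, h1, ← map_add]
      congr 3
      unfold ren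
      rw [rename_C]
    rw [h3, hcc, map_add, map_mul, map_mul, pG, mul_zero, zero_add, map_sub, pST, sub_self,
      mul_zero]
  · -- independence
    have h1 : (fun l : {l : σ // l ≠ j₀} => eW (X (Sum.inl (l : σ)))) =
        fun l : {l : σ // l ≠ j₀} => t (l : σ) := by
      funext l
      rw [heW, aeval_X]
      rfl
    rw [h1]
    exact hj₀
  · -- generation
    have hy0 : eW (ren (pderiv i₀ f)) ≠ 0 := by
      rw [e_ren, hy, hw0, mul_one]
      exact mul_ne_zero (by rw [map_pow]; exact pow_ne_zero _ hπ0) hs0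
    have pS : pr (C (π ^ j) * SS) = pr (ren (pderiv i₀ f)) := by
      rw [pcl, map_mul pr _ (wv i₀), pw, mul_one]
    have rC : ∀ r : R, (ren (C r) : WW R σ) = C r := fun r => by
      unfold ren
      rw [rename_C]
    intro x
    simp only [ay]
    induction x using MvPolynomial.induction_on with
    | C r =>
      refine ⟨C r, 1, ?_, ?_⟩
      · rw [map_one, map_one]
        exact one_ne_zero
      · rw [map_one, one_mul, rC]
    | add p q hp hq =>
      obtain ⟨p1, p1', h1, h2⟩ := hp
      obtain ⟨q1, q1', h3, h4⟩ := hq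
      refine ⟨q1' * p1 + p1' * q1, p1' * q1', ?_, ?_⟩
      · rw [map_mul, map_mul]
        exact mul_ne_zero h1 h3
      · have e1 : (ren (p1' * q1') * (p + q) : WW R σ) =
            ren q1' * (ren p1' * p) + ren p1' * (ren q1' * q) := by
          rw [map_mul]
          ring
        rw [e1, map_add, map_mul pr (ren q1'), map_mul pr (ren p1') (ren q1' * q), h2, h4]
        simp only [map_add, map_mul]
    | mul_X p z hp =>
      obtain ⟨p1, p1', h1, h2⟩ := hp
      obtain ⟨q1, q1', h3, h4⟩ : ∃ q1 q1' : MvPolynomial σ R, eW (ren q1') ≠ 0 ∧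
          pr (ren q1' * X z) = pr (ren q1) := by
        rcases z with l | l | c
        · refine ⟨X l, 1, ?_, ?_⟩
          · rw [map_one, map_one]
            exact one_ne_zero
          · rw [map_one, one_mul]
            unfold ren
            rw [rename_X]
        · refine ⟨pderiv l f, pderiv i₀ f, hy0, ?_⟩
          change pr (ren (pderiv i₀ f) * wv l) = _
          rw [map_mul, ← pS, ← map_mul, ← pcl]
        · cases c
          · refine ⟨C (π ^ (j + 1)), pderiv i₀ f, hy0, ?_⟩
            change pr (ren (pderiv i₀ f) * TT) = _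
            rw [map_mul, ← pS, ← map_mul]
            have e1 : (C (π ^ j) * SS * TT : WW R σ) = C (π ^ j) * (SS * TT) := by ring
            rw [e1, map_mul, pST, ← map_mul, rC, pow_succ, map_mul C]
          · refine ⟨pderiv i₀ f, C (π ^ j), ?_, ?_⟩
            · rw [rC, e_C, map_pow]
              exact pow_ne_zero _ hπ0
            · change pr (ren (C (π ^ j)) * SS) = _
              rw [rC, pS]
      refine ⟨p1 * q1, p1' * q1', ?_, ?_⟩
      · rw [map_mul, map_mul]
        exact mul_ne_zero h1 h3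
      · have e1 : (ren (p1' * q1') * (p * X z) : WW R σ) = (ren p1' * p) * (ren q1' * X z) := by
          rw [map_mul]
          ring
        rw [e1, map_mul, h2, h4, ← map_mul, ← map_mul]

theorem t_REG2 (hJ1 : S_JR1) (hJ2 : S_JR2) : S_REG2 := by
  intro R F σ _ _ _ _ _ _ _ 𝒪 π f t k h u b nd j i₀ w s τ hwm hw0 hs hτ hτU hst hy hk hfr
  have hinj : Function.Injective (algebraMap R F) := by
    obtain ⟨j₀, hj₀⟩ := nd.ind
    exact hj₀.algebraMap_injective
  have hπ0 : algebraMap R F π ≠ 0 := by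
    rw [Ne, map_eq_zero_iff _ hinj]
    exact nd.irr.ne_zero
  have hs0 : s ≠ 0 := by
    rintro rfl
    rw [zero_mul] at hst
    exact hπ0 hst.symm
  have hτ0 : τ ≠ 0 := by
    rintro rfl
    rw [mul_zero] at hst
    exact hπ0 hst.symm
  -- the value of the quadratic form
  have hq : aeval (val2 t w s τ) (qq b : WW R σ) = ∑ l, ∑ m, aeval t (b l m) * w l * w m := by
    unfold qq
    rw [map_sum]
    refine Finset.sum_congr rfl fun l _ => ?_
    rw [map_sum]
    refine Finset.sum_congr rfl fun m _ => ?_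
    unfold ren wv
    rw [map_mul, map_mul, aeval_rename, aeval_X, aeval_X]
    rfl
  have hren : ∀ p : MvPolynomial σ R, aeval (val2 t w s τ) (ren p : WW R σ) = aeval t p := by
    intro p
    unfold ren
    rw [aeval_rename]
    rfl
  have hSv : aeval (val2 t w s τ) (SS : WW R σ) = s := by
    unfold SS
    rw [aeval_X]
    rfl
  have hTv : aeval (val2 t w s τ) (TT : WW R σ) = τ := by
    unfold TT
    rw [aeval_X]
    rfl
  have hval : (s * τ) ^ k * aeval t u +
      (s * τ) ^ (2 * j) * s ^ 2 * aeval (val2 t w s τ) (qq b : WW R σ) = 0 := by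
    have h1 := congrArg (aeval t) nd.eq
    rw [map_mul, nd.rel, mul_zero, map_add, map_mul, aeval_C, map_sum] at h1
    rw [hq, hst, Finset.mul_sum, h1, map_pow]
    congr 1
    refine Finset.sum_congr rfl fun l _ => ?_
    rw [map_sum, Finset.mul_sum]
    refine Finset.sum_congr rfl fun m _ => ?_
    rw [map_mul, map_mul, hy, hy, map_pow]
    ring
  have hdvd : ∀ m : ℕ, ∃ c : WW R σ, (C (π ^ m) : WW R σ) = (SS * TT) ^ m + c * (SS * TT - C π) := by
    intro m
    obtain ⟨c, hc⟩ := sub_dvd_pow_sub_pow (SS * TT : WW R σ) (C π) m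
    refine ⟨-c, ?_⟩
    rw [map_pow]
    linear_combination (-1 : WW R σ) * hc
  obtain ⟨c1, hc1⟩ := hdvd k
  obtain ⟨c2, hc2⟩ := hdvd (2 * j)
  rcases Nat.eq_or_lt_of_le hk with hk1 | hk2
  · -- `k = 2 j + 1`
    subst hk1
    refine reg2_aux hJ1 hJ2 𝒪 π f t (2 * j + 1) h u b nd j i₀ w s τ hwm hw0 hs hτ hτU hst hy hfr
      SS (ren u * TT + SS * qq b) ?_ ?_ ?_ ?_ ?_
    · rw [map_add, map_mul, map_mul, hren, hTv, hSv]
      have h1 : s ^ (2 * j + 1) * τ ^ (2 * j) *
          (aeval t u * τ + s * aeval (val2 t w s τ) (qq b : WW R σ)) = 0 := by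
        rw [← hval]
        ring
      rcases mul_eq_zero.mp h1 with h2 | h2
      · exact absurd h2 (mul_ne_zero (pow_ne_zero _ hs0) (pow_ne_zero _ hτ0))
      · exact h2
    · refine ⟨SS ^ (2 * j + 1) * TT ^ (2 * j), c1 * ren u + c2 * SS ^ 2 * qq b, ?_⟩
      rw [hc1, hc2]
      ring
    · intro m
      rw [map_add, pderiv_mul, pderiv_mul, d_ren_inr, d_T_w, d_S_w, d_q_w]
      ring
    · intro Q hQ hT hG hS
      have h1 : (SS * qq b : WW R σ) ∈ Q := (Ideal.add_mem_iff_right Q (Q.mul_mem_left _ hT)).mp hG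
      exact (hQ.mem_or_mem h1).resolve_left hS
    · intro Q hQ hT hS hu
      refine ⟨hS, ?_⟩
      rw [map_add, pderiv_mul, pderiv_mul, d_ren_inr, d_T_T, d_S_T, d_q_T]
      intro h1
      apply hu
      have e1 : (0 * TT + ren u * 1 + (0 * qq b + SS * 0) : WW R σ) = ren u := by ring
      rw [e1] at h1
      exact h1
  · -- `k ≥ 2 j + 2`
    obtain ⟨n, rfl⟩ : ∃ n, k = 2 * j + 2 + n := ⟨k - (2 * j + 2), by omega⟩
    refine reg2_aux hJ1 hJ2 𝒪 π f t (2 * j + 2 + n) h u b nd j i₀ w s τ hwm hw0 hs hτ hτU hst hy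
      hfr 1 (ren u * SS ^ n * TT ^ (n + 2) + qq b) ?_ ?_ ?_ ?_ ?_
    · rw [map_add, map_mul, map_mul, map_pow, map_pow, hren, hTv, hSv]
      have h1 : s ^ (2 * j + 2) * τ ^ (2 * j) *
          (aeval t u * s ^ n * τ ^ (n + 2) + aeval (val2 t w s τ) (qq b : WW R σ)) = 0 := by
        rw [← hval]
        ring
      rcases mul_eq_zero.mp h1 with h2 | h2
      · exact absurd h2 (mul_ne_zero (pow_ne_zero _ hs0) (pow_ne_zero _ hτ0))
      · exact h2
    · refine ⟨SS ^ (2 * j + 2) * TT ^ (2 * j), c1 * ren u + c2 * SS ^ 2 * qq b, ?_⟩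
      rw [hc1, hc2]
      ring
    · intro m
      have hS : pderiv (Sum.inr (Sum.inl m)) (SS ^ n : WW R σ) = 0 := by
        rw [pderiv_pow, d_S_w, mul_zero]
      have hT : pderiv (Sum.inr (Sum.inl m)) (TT ^ (n + 2) : WW R σ) = 0 := by
        rw [pderiv_pow, d_T_w, mul_zero]
      rw [map_add, pderiv_mul, pderiv_mul, d_ren_inr, hS, hT, d_q_w]
      ring
    · intro Q hQ hT hG _
      refine (Ideal.add_mem_iff_right Q ?_).mp hG
      rw [pow_succ]
      exact Q.mul_mem_left _ (Q.mul_mem_left _ hT)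
    · intro Q hQ _ h1 _
      exact absurd ((Ideal.eq_top_iff_one Q).mpr h1) hQ.ne_top

end

end Pool.Agent.K3h69.ND
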